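import Pool.Agent.X37.FE.Stm

set_option autoImplicit false

namespace Pool.Agent.X115.FE

open MeasureTheory Set Filter Topology RealInnerProductSpace Pool.Agent.X37.FE

theorem t (H : Type*) [NormedAddCommGroup H] [InnerProductSpace ℝ H] [CompleteSpace H] :
    S_CON H := by
  intro hBND B L c P G hc hdense hLB hBL hsym hnn hLBn hfam
  have hcom : ∀ n x, B (L n x) = L n (B x) := by
    intro n x
    have h1 := hLB n x
    have h2 := hBL n x
    have h3 : L n (B x) + (1 / ((n : ℝ) + 1)) • L n x = B (L n x) + (1 / ((n : ℝ) + 1)) • L n x := by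
      rw [h1, h2]
    exact (add_right_cancel h3).symm
  have bound : ∀ τ : ℝ, 0 ≤ τ → ∃ C : ℝ, 0 ≤ C ∧ (∀ n x t, |t| ≤ τ →
      ‖P n t x‖ ≤ C * ‖x‖ ∧ ‖G n t x‖ ≤ C * ‖x‖) ∧
      (∀ (n m : ℕ) (y : H) (t : ℝ), |t| ≤ τ →
        ‖P n t (B (B y)) - P m t (B (B y))‖ ≤
          C * ((1 / ((n : ℝ) + 1) + 1 / ((m : ℝ) + 1)) * (C * ‖y‖)) ∧
        ‖G n t (B (B y)) - G m t (B (B y))‖ ≤
          C * ((1 / ((n : ℝ) + 1) + 1 / ((m : ℝ) + 1)) * (C * ‖y‖))) := by
    intro τ hτ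
    obtain ⟨C, hC0, hC⟩ := hBND c τ hc hτ
    have hb : ∀ n x t, |t| ≤ τ → ‖P n t x‖ ≤ C * ‖x‖ ∧ ‖G n t x‖ ≤ C * ‖x‖ := by
      intro n x t ht
      have h := hC (L n) (hsym n) (hnn n) (fun s => P n s x) (fun s => G n s x) (fun _ => 0) 0 le_rfl
        (fun s => (hfam n).dP x s)
        (fun s => by simpa using (hfam n).dG x s)
        (by simp [(hfam n).P0]) (by simp) t ht
      have e : G n 0 x = x := by simp [(hfam n).G0]
      simp only [e, add_zero] at h
      exact ⟨h.2, h.1⟩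
    refine ⟨C, hC0, hb, ?_⟩
    intro n m y t ht
    set x0 := B (B y) with hx0
    set K : ℝ := (1 / ((n : ℝ) + 1) + 1 / ((m : ℝ) + 1)) * (C * ‖y‖) with hK
    have hK0 : 0 ≤ K := by positivity
    have hPB : ∀ s z, B (P m s z) = P m s (B z) := fun s z =>
      ((hfam m).com B (hcom m) s z).1
    have hg : ∀ s, |s| ≤ τ → ‖L m (P m s x0) - L n (P m s x0)‖ ≤ K := by
      intro s hs
      set w := P m s y with hw
      have e1 : P m s x0 = B (B w) := by rw [hx0, ← hPB, ← hPB]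
      have e2 : L m (B (B w)) = B w - (1 / ((m : ℝ) + 1)) • L m (B w) := by
        rw [eq_sub_iff_add_eq]
        exact hLB m (B w)
      have e3 : L n (B (B w)) = B w - (1 / ((n : ℝ) + 1)) • L n (B w) := by
        rw [eq_sub_iff_add_eq]
        exact hLB n (B w)
      rw [e1, e2, e3]
      have e4 : B w - (1 / ((m : ℝ) + 1)) • L m (B w) - (B w - (1 / ((n : ℝ) + 1)) • L n (B w)) =
          (1 / ((n : ℝ) + 1)) • L n (B w) - (1 / ((m : ℝ) + 1)) • L m (B w) := by abel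
      rw [e4]
      have hn1 : (0 : ℝ) ≤ 1 / ((n : ℝ) + 1) := by positivity
      have hm1 : (0 : ℝ) ≤ 1 / ((m : ℝ) + 1) := by positivity
      have hwy : ‖w‖ ≤ C * ‖y‖ := (hb m y s hs).1
      calc ‖(1 / ((n : ℝ) + 1)) • L n (B w) - (1 / ((m : ℝ) + 1)) • L m (B w)‖
          ≤ ‖(1 / ((n : ℝ) + 1)) • L n (B w)‖ + ‖(1 / ((m : ℝ) + 1)) • L m (B w)‖ := norm_sub_le _ _
        _ = 1 / ((n : ℝ) + 1) * ‖L n (B w)‖ + 1 / ((m : ℝ) + 1) * ‖L m (B w)‖ := by
            rw [norm_smul, norm_smul, Real.norm_of_nonneg hn1, Real.norm_of_nonneg hm1]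
        _ ≤ 1 / ((n : ℝ) + 1) * (C * ‖y‖) + 1 / ((m : ℝ) + 1) * (C * ‖y‖) := by
            have a1 := (hLBn n w).trans hwy
            have a2 := (hLBn m w).trans hwy
            exact add_le_add (mul_le_mul_of_nonneg_left a1 hn1) (mul_le_mul_of_nonneg_left a2 hm1)
        _ = K := by rw [hK]; ring
    have h := hC (L n) (hsym n) (hnn n) (fun s => P n s x0 - P m s x0)
      (fun s => G n s x0 - G m s x0) (fun s => L m (P m s x0) - L n (P m s x0)) K hK0
      (fun s => ((hfam n).dP x0 s).sub ((hfam m).dP x0 s))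
      (fun s => by
        have h1 := ((hfam n).dG x0 s).sub ((hfam m).dG x0 s)
        exact h1.congr_deriv (by simp only [map_sub, smul_sub]; abel))
      (by simp [(hfam n).P0, (hfam m).P0]) hg t ht
    have e : G n 0 x0 - G m 0 x0 = 0 := by simp [(hfam n).G0, (hfam m).G0]
    simp only [e, norm_zero, zero_add] at h
    exact ⟨h.2, h.1⟩
  refine ⟨fun τ hτ => ?_, ?_⟩
  · obtain ⟨C, h0, h1, -⟩ := bound τ hτ
    exact ⟨C, h0, h1⟩
  · intro x τ ε hε
    rcases lt_or_ge τ 0 with hτ | hτ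
    · refine ⟨0, fun m n _ _ t ht => ?_⟩
      exact absurd (abs_nonneg t) (by linarith)
    obtain ⟨C, hC0, hb, hd⟩ := bound τ hτ
    set η : ℝ := ε / (4 * (C + 1)) with hη
    have hη0 : 0 < η := by positivity
    obtain ⟨z, hz, y, rfl⟩ := (Metric.dense_iff.1 hdense x η hη0)
    rw [Metric.mem_ball, dist_comm, dist_eq_norm] at hz
    obtain ⟨N, hN⟩ := exists_nat_gt (4 * C * (C * ‖y‖) / ε)
    refine ⟨N, fun m n hm hn t ht => ?_⟩
    have hK : C * ((1 / ((n : ℝ) + 1) + 1 / ((m : ℝ) + 1)) * (C * ‖y‖)) ≤ ε / 2 := by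
      have hNn : (N : ℝ) ≤ n := by exact_mod_cast hn
      have hNm : (N : ℝ) ≤ m := by exact_mod_cast hm
      have hN0 : (0 : ℝ) ≤ N := by positivity
      have i1 : 1 / ((n : ℝ) + 1) ≤ 1 / ((N : ℝ) + 1) := by gcongr
      have i2 : 1 / ((m : ℝ) + 1) ≤ 1 / ((N : ℝ) + 1) := by gcongr
      have i3 : 4 * C * (C * ‖y‖) ≤ ε * ((N : ℝ) + 1) := by
        rw [div_lt_iff₀ hε] at hN
        nlinarith
      calc C * ((1 / ((n : ℝ) + 1) + 1 / ((m : ℝ) + 1)) * (C * ‖y‖))
          ≤ C * ((1 / ((N : ℝ) + 1) + 1 / ((N : ℝ) + 1)) * (C * ‖y‖)) := by gcongr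
        _ = (4 * C * (C * ‖y‖)) / ((N : ℝ) + 1) / 2 := by
            field_simp
            ring
        _ ≤ (ε * ((N : ℝ) + 1)) / ((N : ℝ) + 1) / 2 := by gcongr
        _ = ε / 2 := by
            field_simp
    have hCη : C * η + C * η ≤ ε / 2 := by
      have : (C + 1) * η = ε / 4 := by
        rw [hη]
        field_simp
      nlinarith
    have split : ∀ (F : ℕ → ℝ → H →L[ℝ] H), (∀ k z t, |t| ≤ τ → ‖F k t z‖ ≤ C * ‖z‖) →
        ‖F n t (B (B y)) - F m t (B (B y))‖ ≤ ε / 2 → ‖F n t x - F m t x‖ ≤ ε := by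
      intro F hF hd2
      have e : F n t x - F m t x = F n t (x - B (B y)) + (F n t (B (B y)) - F m t (B (B y))) -
          F m t (x - B (B y)) := by
        rw [map_sub, map_sub]
        abel
      rw [e]
      have b1 : ‖F n t (x - B (B y))‖ ≤ C * η :=
        (hF n _ t ht).trans (mul_le_mul_of_nonneg_left hz.le hC0)
      have b2 : ‖F m t (x - B (B y))‖ ≤ C * η :=
        (hF m _ t ht).trans (mul_le_mul_of_nonneg_left hz.le hC0)
      have b3 := norm_sub_le (F n t (x - B (B y)) + (F n t (B (B y)) - F m t (B (B y))))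
        (F m t (x - B (B y)))
      have b4 := norm_add_le (F n t (x - B (B y))) (F n t (B (B y)) - F m t (B (B y)))
      linarith
    exact ⟨split P (fun k z t ht => (hb k z t ht).1) ((hd n m y t ht).1.trans hK),
      split G (fun k z t ht => (hb k z t ht).2) ((hd n m y t ht).2.trans hK)⟩

end Pool.Agent.X115.FE
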